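import Mathlib
import Pool.Agent.Helper62.DD.Sub

/-!
# A lower bound for the dimension of every component in terms of the degrees

Let `K` be an ordinary differential field of characteristic zero and `u₁, …, u_i` differential
polynomials in `n` unknowns over `K`. For every set `S` of unknowns every minimal prime over
`[u₁, …, u_i]` has differential transcendence degree at least `|S| - ∑ deg_S u_m`, where `deg_S` is
the total degree in the unknowns of `S` and their derivatives. For the set of all unknowns: the
differential codimension of every component is at most the sum of the total degrees, whatever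
the order of the system; so the dimension conjecture holds for every system with `∑ deg u_m < n`.

Proof: at a generic point `ξ` of the component the homogeneous parts of the `u_m (ξ + y)`, `y`
supported on `S`, form a homogeneous system of `∑ deg_S u_m` equations, to which the theorem on
homogeneous systems applies.
-/

open MvPolynomial

namespace Pool.Agent.Results.MP_2c9d0b_al.DegreeBound

open Pool.Agent.Helper21.PD

theorem result (K : Type) [Field K] [CharZero K] [Differential K] (n i : ℕ)
    (u : Fin i → MvPolynomial (Fin n × ℕ) K)
    (D : Derivation ℤ (MvPolynomial (Fin n × ℕ) K) (MvPolynomial (Fin n × ℕ) K))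
    (hC : ∀ a : K, D (MvPolynomial.C a) = MvPolynomial.C (Differential.deriv a))
    (hX : ∀ (j : Fin n) (k : ℕ), D (MvPolynomial.X (j, k)) = MvPolynomial.X (j, k + 1))
    (P : Ideal (MvPolynomial (Fin n × ℕ) K))
    (hP : P ∈ (sInf {J : Ideal (MvPolynomial (Fin n × ℕ) K) |
        (∀ m, u m ∈ J) ∧ ∀ f ∈ J, D f ∈ J}).minimalPrimes)
    (S : Finset (Fin n)) :
    ∃ J ⊆ S,
      J.card = S.card -
        ∑ m, (u m).weightedTotalDegree (fun v : Fin n × ℕ => if v.1 ∈ S then 1 else 0) ∧
      ∀ f ∈ MvPolynomial.supported K {v : Fin n × ℕ | v.1 ∈ J}, f ∈ P → f = 0 := by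
  let d : Der K :=
    { toFun := fun a => Differential.deriv a
      add' := fun a b => map_add _ _ _
      mul' := fun a b => by
        rw [Derivation.leibniz, smul_eq_mul, smul_eq_mul] }
  let D' : Der (MvPolynomial (Fin n × ℕ) K) :=
    { toFun := fun a => D a
      add' := fun a b => map_add _ _ _
      mul' := fun a b => by
        rw [Derivation.leibniz, smul_eq_mul, smul_eq_mul] }
  have hDD : ∀ f, D f = dext d f := fun f =>
    dext_unique d D' (fun a => hC a) (fun v => hX v.1 v.2) f
  have hsInf : sInf {J : Ideal (MvPolynomial (Fin n × ℕ) K) |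
      (∀ m, u m ∈ J) ∧ ∀ f ∈ J, D f ∈ J} = diffIdeal d u := by
    refine le_antisymm (sInf_le ⟨fun m => Ideal.subset_span ⟨(m, 0), rfl⟩, fun f hf => ?_⟩)
      (le_sInf ?_)
    · rw [hDD]
      exact P15.diffIdeal_stable d u f hf
    · rintro J ⟨hJu, hJD⟩
      unfold diffIdeal
      rw [Ideal.span_le]
      rintro _ ⟨⟨m, l⟩, rfl⟩
      change (dext d)^[l] (u m) ∈ J
      induction l with
      | zero => exact hJu m
      | succ l ih =>
        rw [Function.iterate_succ_apply', ← hDD]
        exact hJD _ ih
  rw [hsInf] at hP
  exact Pool.Agent.Helper62.DD.dim_ge d u P hP S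

end Pool.Agent.Results.MP_2c9d0b_al.DegreeBound
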