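import Mathlib
import Pool.Agent.Helper62.Crisp.Dim

/-!
# A differential Bezout theorem

Let `K` be an ordinary differential field of characteristic zero and `u₁, …, u_i ∈ K{x₁, …, x_n}`,
`i ≤ n`, differential polynomials of any orders and positive total degrees. Let `U_m` be the
homogeneous part of highest degree of `u_m`, and suppose that there are homogeneous differential
polynomials `v₁, …, v_{n-i}` of positive degrees such that `0` is the only common zero of
`U₁, …, U_i, v₁, …, v_{n-i}` in differential extension fields of `K`, that is, every differential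
prime ideal which contains them contains `x₁, …, x_n`. Then `[u₁, …, u_i]` is a proper ideal, and
some minimal prime over it has differential transcendence degree at least `n - i`.

The ring `K{x₁, …, x_n}` is `MvPolynomial (Fin n × ℕ) K`, where the variable `(j, k)` is the `k`-th
derivative of `x_j`; `D` is its derivation.
-/

open MvPolynomial

namespace Pool.Agent.Results.MP_2c9d0b_al.DifferentialBezout

theorem result (K : Type) [Field K] [CharZero K] [Differential K] (n i : ℕ) (hin : i ≤ n)
    (D : Derivation ℤ (MvPolynomial (Fin n × ℕ) K) (MvPolynomial (Fin n × ℕ) K))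
    (hC : ∀ a : K, D (C a) = C (Differential.deriv a))
    (hX : ∀ (j : Fin n) (k : ℕ), D (X (j, k)) = X (j, k + 1))
    (u : Fin i → MvPolynomial (Fin n × ℕ) K) (hu : ∀ m, 0 < (u m).totalDegree)
    (v : Fin (n - i) → MvPolynomial (Fin n × ℕ) K)
    (hv : ∀ l, ∃ f, 0 < f ∧ (v l).IsHomogeneous f)
    (h0 : ∀ Q : Ideal (MvPolynomial (Fin n × ℕ) K), Q.IsPrime → (∀ g ∈ Q, D g ∈ Q) →
      (∀ m, homogeneousComponent (u m).totalDegree (u m) ∈ Q) → (∀ l, v l ∈ Q) →
      ∀ j, X (j, 0) ∈ Q) :
    ∃ P ∈ (sInf {J : Ideal (MvPolynomial (Fin n × ℕ) K) |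
        (∀ m, u m ∈ J) ∧ ∀ g ∈ J, D g ∈ J}).minimalPrimes,
      ∃ J : Finset (Fin n), J.card = n - i ∧
        ∀ g ∈ supported K {v : Fin n × ℕ | v.1 ∈ J}, g ∈ P → g = 0 :=
  Pool.Agent.Helper62.Crisp.global K n i hin D hC hX u hu v hv h0

end Pool.Agent.Results.MP_2c9d0b_al.DifferentialBezout
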