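import Mathlib
import Pool.Agent.Helper21.PD.P16

/-!
# The dimension conjecture for one component of a homogeneous system

Let `K` be an ordinary differential field of characteristic zero and let `i < n`. If
`u₁, …, u_i ∈ K{x₁, …, x_n}` are weighted homogeneous of positive degree, then some minimal prime
over `[u₁, …, u_i]` has differential transcendence degree at least `n - i`; in particular the
origin is never an isolated zero.

The proof reduces identities to characteristic `p` by truncated Taylor expansion, and uses points
of degree prime to `p` on complete intersections over a function field.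
-/

open MvPolynomial

namespace Pool.Agent.Results.MP_2c9d0b_al.HomogeneousDimension

open Pool.Agent.Helper21.PD

/-- **Ritt's form of the dimension conjecture, for at least one component of every weighted
homogeneous system** (a differential projective dimension theorem). -/
theorem result (K : Type) [Field K] [CharZero K] [Differential K] (n i : ℕ) (hin : i < n)
    (u : Fin i → MvPolynomial (Fin n × ℕ) K)
    (D : Derivation ℤ (MvPolynomial (Fin n × ℕ) K) (MvPolynomial (Fin n × ℕ) K))
    (hC : ∀ a : K, D (MvPolynomial.C a) = MvPolynomial.C (Differential.deriv a))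
    (hX : ∀ (j : Fin n) (k : ℕ), D (MvPolynomial.X (j, k)) = MvPolynomial.X (j, k + 1))
    (w : Fin n → ℕ) (hw : ∀ j, 0 < w j) (e : Fin i → ℕ) (he : ∀ m, 0 < e m)
    (hu : ∀ m, (u m).IsWeightedHomogeneous (fun v : Fin n × ℕ => w v.1) (e m)) :
    ∃ P ∈ (sInf {J : Ideal (MvPolynomial (Fin n × ℕ) K) |
        (∀ m, u m ∈ J) ∧ ∀ f ∈ J, D f ∈ J}).minimalPrimes,
      P ≤ Ideal.span (Set.range MvPolynomial.X) ∧
      ∃ J : Finset (Fin n), J.card = n - i ∧
        ∀ f ∈ MvPolynomial.supported K {v : Fin n × ℕ | v.1 ∈ J}, f ∈ P → f = 0 := by
  let d : Der K :=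
    { toFun := fun a => Differential.deriv a
      add' := fun a b => map_add _ _ _
      mul' := fun a b => by
        rw [Derivation.leibniz, smul_eq_mul, smul_eq_mul] }
  let D' : Der (MvPolynomial (Fin n × ℕ) K) :=
    { toFun := fun a => D a
      add' := fun a b => map_add _ _ _
      mul' := fun a b => by
        rw [Derivation.leibniz, smul_eq_mul, smul_eq_mul] }
  have hDD : ∀ f, D f = dext d f := fun f =>
    dext_unique d D' (fun a => hC a) (fun v => hX v.1 v.2) f
  have hsInf : sInf {J : Ideal (MvPolynomial (Fin n × ℕ) K) |
      (∀ m, u m ∈ J) ∧ ∀ f ∈ J, D f ∈ J} = diffIdeal d u := by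
    refine le_antisymm (sInf_le ⟨fun m => Ideal.subset_span ⟨(m, 0), rfl⟩, fun f hf => ?_⟩)
      (le_sInf ?_)
    · rw [hDD]
      exact P15.diffIdeal_stable d u f hf
    · rintro J ⟨hJu, hJD⟩
      unfold diffIdeal
      rw [Ideal.span_le]
      rintro _ ⟨⟨m, l⟩, rfl⟩
      change (dext d)^[l] (u m) ∈ J
      induction l with
      | zero => exact hJu m
      | succ l ih =>
        rw [Function.iterate_succ_apply', ← hDD]
        exact hJD _ ih
  rw [hsInf]
  exact exists_component_weighted d hin u w hw e he hu

end Pool.Agent.Results.MP_2c9d0b_al.HomogeneousDimension
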