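import Mathlib
import Pool.Agent.Helper62.Crisp.Dim

/-!
# A local dimension theorem for systems of algebraic differential equations

Let `K ⊆ L` be ordinary differential fields of characteristic zero, `u₁, …, u_i ∈ K{x₁, …, x_n}`,
`i < n`, differential polynomials of any orders, and `ξ ∈ L^n`. Let `T_m = u_m(ξ + y) ∈ L{y}` have no
terms of degree `< e_m`, `e_m ≥ 1`, let `U_m` be its homogeneous part of degree `e_m`, and suppose that
there are homogeneous differential polynomials `v₁, …, v_{n-i}` over `L` of positive degrees such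
that `0` is the only common zero of `U₁, …, U_i, v₁, …, v_{n-i}` in differential extension fields of
`L`, that is, every differential prime ideal which contains them contains `y₁, …, y_n`. Then some
minimal prime over `[u₁, …, u_i]` is contained in the ideal of `ξ` and has differential
transcendence degree at least `n - i`.

The ring `K{x₁, …, x_n}` is `MvPolynomial (Fin n × ℕ) K`, where the variable `(j, k)` is the `k`-th
derivative of `x_j`; `D` and `DL` are the derivations of `K{x₁, …, x_n}` and `L{y₁, …, y_n}`.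
-/

open MvPolynomial

namespace Pool.Agent.Results.MP_2c9d0b_al.InitialForms

theorem result (K L : Type) [Field K] [CharZero K] [Differential K] [Field L] [Differential L]
    [Algebra K L] [DifferentialAlgebra K L] (n i : ℕ) (hin : i < n)
    (D : Derivation ℤ (MvPolynomial (Fin n × ℕ) K) (MvPolynomial (Fin n × ℕ) K))
    (hC : ∀ a : K, D (C a) = C (Differential.deriv a))
    (hX : ∀ (j : Fin n) (k : ℕ), D (X (j, k)) = X (j, k + 1))
    (DL : Derivation ℤ (MvPolynomial (Fin n × ℕ) L) (MvPolynomial (Fin n × ℕ) L))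
    (hLC : ∀ a : L, DL (C a) = C (Differential.deriv a))
    (hLX : ∀ (j : Fin n) (k : ℕ), DL (X (j, k)) = X (j, k + 1))
    (u : Fin i → MvPolynomial (Fin n × ℕ) K) (ξ : Fin n → L)
    (T : Fin i → MvPolynomial (Fin n × ℕ) L)
    (hT : ∀ m, T m = aeval (fun v : Fin n × ℕ =>
        (X v + C ((fun a : L => Differential.deriv a)^[v.2] (ξ v.1)) :
          MvPolynomial (Fin n × ℕ) L)) (u m))
    (e : Fin i → ℕ) (he : ∀ m, 0 < e m) (hlow : ∀ m, ∀ k < e m, homogeneousComponent k (T m) = 0)
    (v : Fin (n - i) → MvPolynomial (Fin n × ℕ) L)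
    (hv : ∀ l, ∃ f, 0 < f ∧ (v l).IsHomogeneous f)
    (h0 : ∀ Q : Ideal (MvPolynomial (Fin n × ℕ) L), Q.IsPrime → (∀ g ∈ Q, DL g ∈ Q) →
      (∀ m, homogeneousComponent (e m) (T m) ∈ Q) → (∀ l, v l ∈ Q) → ∀ j, X (j, 0) ∈ Q) :
    ∃ P ∈ (sInf {J : Ideal (MvPolynomial (Fin n × ℕ) K) |
        (∀ m, u m ∈ J) ∧ ∀ g ∈ J, D g ∈ J}).minimalPrimes,
      (∀ g ∈ P, aeval (fun v : Fin n × ℕ =>
        (fun a : L => Differential.deriv a)^[v.2] (ξ v.1)) g = 0) ∧
      ∃ J : Finset (Fin n), J.card = n - i ∧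
        ∀ g ∈ supported K {v : Fin n × ℕ | v.1 ∈ J}, g ∈ P → g = 0 :=
  Pool.Agent.Helper62.Crisp.loc K L n i hin D hC hX DL hLC hLX u ξ T hT e he hlow v hv h0

end Pool.Agent.Results.MP_2c9d0b_al.InitialForms
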